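import Pool.Agent.H776R2.Fatou.FDefs
import Pool.Agent.H776R2.Fatou.Label
import Pool.Agent.H776R2.Fatou.Layout
import Pool.Agent.H776R2.Fatou.Comb
import Pool.Agent.H776R2.Fatou.PEx
import Pool.Agent.H776R2.Fatou.Sum
import Pool.Agent.H776R2.Fatou.ODisc
import Pool.Agent.H776R2.Fatou.Maxi
import Pool.Agent.H776R2.Fatou.Seq

set_option autoImplicit false

/-!
# The discrete Fatou theorem fails (MP_3555ad_an, Q1)

We construct a combinatorial open disc `K`, its maximal circle packing `(C, R)` in the unit disc, and a
bounded (branched, non univalent) circle packing `(c, r)` for `K`, such that for all directions `θ` in a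
set `E ⊆ (-π, π]` of measure at least `6` there is a sequence of centres `C (v j)` converging
nontangentially to `exp (i θ)` whose images `c (v j)` do not converge.

Construction. `K` is a spiral triangulation: the vertices are created one after the other and the flower
of the vertex `k` is closed at stage `k` with `N k = 2 q k + 64` new petals, `q k = 10^12 2^k`.
The maximal packing is obtained from a hyperbolic label (Knaster-Tarski fixed point) and a layout whose
boundary polygons are convex at every stage.  In the packing `(c, r)` there are two large circles `A`, `B`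
(centres near `-1`, `1`, radius `1`) and tiny pebbles near `0`; most of the petals of a good vertex are
again of these three types, and its flower is closed by `64` (bad) circles in the middle; the bad
vertices have small total size in the maximal packing, so most rays only meet good circles, and then
adjacent circles met by the ray have images at distance at least `1`.

Definitions (`Pool/Agent/H776R2/Fatou/FDefs.lean`): `Cx` (oriented 2-complex given by its faces),
`Cx.IsOpenDisc` (combinatorial open disc), `Cx.IsPacking` (circle packing for `K`), `Cx.IsMaximal`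
(univalent packing with carrier the open unit disc), `Nontangential`.
-/

namespace Pool.Agent.Results.MP_3555ad_an.NoDiscreteFatou

open Real MeasureTheory Filter Topology Pool.Agent.H776R2.Fatou

/-- **The discrete Fatou theorem is false.** -/
theorem result : ∃ (K : Cx ℕ) (C : ℕ → ℂ) (R : ℕ → ℝ) (c : ℕ → ℂ) (r : ℕ → ℝ),
    K.IsOpenDisc ∧ K.IsMaximal C R ∧ K.IsPacking c r ∧
    Bornology.IsBounded (⋃ v, Metric.sphere (c v) (r v)) ∧
    ∃ E : Set ℝ, E ⊆ Set.Ioc (-π) π ∧ MeasurableSet E ∧ 6 ≤ volume E ∧
      ∀ θ ∈ E, ∃ v : ℕ → ℕ,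
        Nontangential (fun j => C (v j)) (Complex.exp (Complex.I * (θ : ℂ))) ∧
        ¬ ∃ w, Tendsto (fun j => c (v j)) atTop (𝓝 w) := by
  obtain ⟨ρ, hρ⟩ := lab_exists
  obtain ⟨X, hX⟩ := layout_exists hρ
  obtain ⟨st, hst⟩ := st_exists
  obtain ⟨c, r, h0, h1, h2, h3⟩ := p_exists hst
  obtain ⟨E, hE1, hE2, hE3, hE4⟩ := exc_set hX hst
  refine ⟨Kf, _, _, c, r, open_disc hX, maximal hX, packing_of_PFace h0 h1, ?_, E, hE2, hE1, ?_, ?_⟩
  · rw [Metric.isBounded_iff_subset_closedBall 0]
    refine ⟨4, ?_⟩
    intro z hz
    obtain ⟨v, hv⟩ := Set.mem_iUnion.1 hz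
    rw [mem_sphere_iff_norm] at hv
    rw [mem_closedBall_zero_iff]
    calc ‖z‖ = ‖c v + (z - c v)‖ := by ring_nf
      _ ≤ ‖c v‖ + ‖z - c v‖ := norm_add_le _ _
      _ = ‖c v‖ + r v := by rw [hv]
      _ ≤ 4 := h3 v
  · refine le_trans ?_ hE3
    simp
  · intro θ hθ
    exact seq_exists hX hst h0 h1 h2
      (by rw [mul_comm]; exact Complex.norm_exp_ofReal_mul_I θ) (hE4 θ hθ)

end Pool.Agent.Results.MP_3555ad_an.NoDiscreteFatou
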